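import Mathlib

/-!
MP_c6a5e4_co: red-blue unit distances in three-space.

A periodic configuration: cubic period `10`, twenty red and twenty blue points per cell, all
red-blue squared distances at least `17`, and `192` red-blue pairs per cell with squared
distance exactly `17`.  Large blocks of it, scaled by `1 / √17`, show that the number of
red-blue unit distances can exceed `C` times the number of points for every `C < 24 / 5`.
-/

open Finset

namespace Pool.Agent.Results.MP_c6a5e4_co.CrystalBound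

/-- integer vectors -/
abbrev V : Type := ℤ × ℤ × ℤ

/-- squared length -/
def sq (x y z : ℤ) : ℤ := x * x + y * y + z * z

/-- the twenty red points of the cell -/
def CR : List V :=
  [(0,3,6), (5,4,2), (0,8,1), (5,9,7), (0,4,7), (5,3,1), (0,9,2), (5,8,6), (2,1,4), (7,6,4),
   (2,6,9), (7,1,9), (4,3,2), (9,8,2), (4,8,7), (9,3,7), (4,4,1), (9,9,1), (4,9,6), (9,4,6)]

/-- the twenty blue points of the cell -/
def CB : List V :=
  [(0,3,1), (5,9,2), (0,8,6), (5,4,7), (0,4,2), (5,8,1), (0,9,7), (5,3,6), (2,1,9), (7,1,4),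
   (2,6,4), (7,6,9), (4,3,7), (9,3,2), (4,8,2), (9,8,7), (4,4,6), (9,4,1), (4,9,1), (9,9,6)]

/-- the small translations in one coordinate -/
def tr : List ℤ := [-1, 0, 1]

theorem all_ge : (CR.all fun r => CB.all fun b => tr.all fun x => tr.all fun y => tr.all fun z =>
    decide (17 ≤ sq (b.1 - r.1 + 10 * x) (b.2.1 - r.2.1 + 10 * y)
      (b.2.2 - r.2.2 + 10 * z))) = true := by
  decide +kernel

theorem cnt : (CR.map fun r => (CB.map fun b => (tr.map fun x => (tr.map fun y => (tr.map fun z =>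
    if sq (b.1 - r.1 + 10 * x) (b.2.1 - r.2.1 + 10 * y) (b.2.2 - r.2.2 + 10 * z) = 17
      then 1 else 0).sum).sum).sum).sum).sum = 192 := by
  decide +kernel

theorem range_CR : (CR.all fun r => decide (0 ≤ r.1 ∧ r.1 < 10 ∧ 0 ≤ r.2.1 ∧ r.2.1 < 10 ∧
    0 ≤ r.2.2 ∧ r.2.2 < 10)) = true := by
  decide +kernel

theorem range_CB : (CB.all fun r => decide (0 ≤ r.1 ∧ r.1 < 10 ∧ 0 ≤ r.2.1 ∧ r.2.1 < 10 ∧
    0 ≤ r.2.2 ∧ r.2.2 < 10)) = true := by
  decide +kernel

theorem nodup_CR : CR.Nodup := by decide +kernel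

theorem nodup_CB : CB.Nodup := by decide +kernel

theorem nodup_tr : tr.Nodup := by decide +kernel

theorem rg_CR {r : V} (h : r ∈ CR) : 0 ≤ r.1 ∧ r.1 < 10 ∧ 0 ≤ r.2.1 ∧ r.2.1 < 10 ∧
    0 ≤ r.2.2 ∧ r.2.2 < 10 := by
  have := List.all_eq_true.1 range_CR r h
  exact of_decide_eq_true this

theorem rg_CB {r : V} (h : r ∈ CB) : 0 ≤ r.1 ∧ r.1 < 10 ∧ 0 ≤ r.2.1 ∧ r.2.1 < 10 ∧
    0 ≤ r.2.2 ∧ r.2.2 < 10 := by
  have := List.all_eq_true.1 range_CB r h
  exact of_decide_eq_true this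

theorem ge_small {r b : V} (hr : r ∈ CR) (hb : b ∈ CB) {x y z : ℤ} (hx : x ∈ tr) (hy : y ∈ tr)
    (hz : z ∈ tr) : 17 ≤ sq (b.1 - r.1 + 10 * x) (b.2.1 - r.2.1 + 10 * y)
      (b.2.2 - r.2.2 + 10 * z) := by
  have h1 := List.all_eq_true.1 all_ge r hr
  have h2 := List.all_eq_true.1 h1 b hb
  have h3 := List.all_eq_true.1 h2 x hx
  have h4 := List.all_eq_true.1 h3 y hy
  have h5 := List.all_eq_true.1 h4 z hz
  exact of_decide_eq_true h5

theorem mem_tr {x : ℤ} (h1 : -2 < x) (h2 : x < 2) : x ∈ tr := by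
  have : x = -1 ∨ x = 0 ∨ x = 1 := by omega
  rcases this with h | h | h <;> subst h <;> decide

/-- all red-blue squared distances are at least 17 -/
theorem ge_all {r b : V} (hr : r ∈ CR) (hb : b ∈ CB) (x y z : ℤ) :
    17 ≤ sq (b.1 - r.1 + 10 * x) (b.2.1 - r.2.1 + 10 * y) (b.2.2 - r.2.2 + 10 * z) := by
  obtain ⟨r1, r2, r3, r4, r5, r6⟩ := rg_CR hr
  obtain ⟨b1, b2, b3, b4, b5, b6⟩ := rg_CB hb
  have big : ∀ u v w : ℤ, 0 ≤ u → u < 10 → 0 ≤ v → v < 10 → ¬ (-2 < w ∧ w < 2) →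
      121 ≤ (v - u + 10 * w) * (v - u + 10 * w) := by
    intro u v w h1 h2 h3 h4 h5
    rcases not_and_or.1 h5 with h | h
    · have : v - u + 10 * w ≤ -11 := by omega
      nlinarith
    · have : 11 ≤ v - u + 10 * w := by omega
      nlinarith
  by_cases hx : -2 < x ∧ x < 2
  · by_cases hy : -2 < y ∧ y < 2
    · by_cases hz : -2 < z ∧ z < 2
      · exact ge_small hr hb (mem_tr hx.1 hx.2) (mem_tr hy.1 hy.2) (mem_tr hz.1 hz.2)
      · have := big r.2.2 b.2.2 z r5 r6 b5 b6 hz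
        unfold sq
        nlinarith [mul_self_nonneg (b.1 - r.1 + 10 * x), mul_self_nonneg (b.2.1 - r.2.1 + 10 * y)]
    · have := big r.2.1 b.2.1 y r3 r4 b3 b4 hy
      unfold sq
      nlinarith [mul_self_nonneg (b.1 - r.1 + 10 * x), mul_self_nonneg (b.2.2 - r.2.2 + 10 * z)]
  · have := big r.1 b.1 x r1 r2 b1 b2 hx
    unfold sq
    nlinarith [mul_self_nonneg (b.2.2 - r.2.2 + 10 * z), mul_self_nonneg (b.2.1 - r.2.1 + 10 * y)]

/-- the index set of contacts -/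
def cont : Finset (V × V × ℤ × ℤ × ℤ) :=
  (CR.toFinset ×ˢ CB.toFinset ×ˢ tr.toFinset ×ˢ tr.toFinset ×ˢ tr.toFinset).filter fun p =>
    sq (p.2.1.1 - p.1.1 + 10 * p.2.2.1) (p.2.1.2.1 - p.1.2.1 + 10 * p.2.2.2.1)
      (p.2.1.2.2 - p.1.2.2 + 10 * p.2.2.2.2) = 17

theorem cont_card : cont.card = 192 := by
  unfold cont
  rw [Finset.card_filter, Finset.sum_product]
  simp_rw [Finset.sum_product]
  rw [List.sum_toFinset _ nodup_CR]
  simp_rw [List.sum_toFinset _ nodup_CB, List.sum_toFinset _ nodup_tr]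
  exact cnt

/-- boxes of cells -/
noncomputable def box (a b : ℤ) : Finset V := Finset.Ico a b ×ˢ Finset.Ico a b ×ˢ Finset.Ico a b

theorem box_card (a b : ℤ) : (box a b).card = (b - a).toNat ^ 3 := by
  unfold box
  simp only [Finset.card_product, Int.card_Ico]
  ring

/-- the point of the cell `c` with offset `r` -/
def pt (c r : V) : V := (10 * c.1 + r.1, 10 * c.2.1 + r.2.1, 10 * c.2.2 + r.2.2)

/-- red points of the block -/
noncomputable def RR (k : ℕ) : Finset V := (box 0 k ×ˢ CR.toFinset).image fun p => pt p.1 p.2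

/-- blue points of the block -/
noncomputable def BB (k : ℕ) : Finset V := (box 0 k ×ˢ CB.toFinset).image fun p => pt p.1 p.2

theorem card_RR (k : ℕ) : (RR k).card ≤ 20 * k ^ 3 := by
  unfold RR
  refine Finset.card_image_le.trans ?_
  rw [Finset.card_product, box_card, List.toFinset_card_of_nodup nodup_CR]
  have : CR.length = 20 := rfl
  rw [this]
  simp only [sub_zero, Int.toNat_natCast]
  omega

theorem card_BB (k : ℕ) : (BB k).card ≤ 20 * k ^ 3 := by
  unfold BB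
  refine Finset.card_image_le.trans ?_
  rw [Finset.card_product, box_card, List.toFinset_card_of_nodup nodup_CB]
  have : CB.length = 20 := rfl
  rw [this]
  simp only [sub_zero, Int.toNat_natCast]
  omega

/-- squared distance -/
def d2 (u v : V) : ℤ := sq (v.1 - u.1) (v.2.1 - u.2.1) (v.2.2 - u.2.2)

theorem d2_pt (c e r b : V) : d2 (pt c r) (pt e b) =
    sq (b.1 - r.1 + 10 * (e.1 - c.1)) (b.2.1 - r.2.1 + 10 * (e.2.1 - c.2.1))
      (b.2.2 - r.2.2 + 10 * (e.2.2 - c.2.2)) := by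
  unfold d2 pt sq
  ring

theorem sep {k : ℕ} {u v : V} (hu : u ∈ RR k) (hv : v ∈ BB k) : 17 ≤ d2 u v := by
  unfold RR at hu
  unfold BB at hv
  obtain ⟨p, hp, rfl⟩ := Finset.mem_image.1 hu
  obtain ⟨q, hq, rfl⟩ := Finset.mem_image.1 hv
  rw [d2_pt]
  exact ge_all (List.mem_toFinset.1 (Finset.mem_product.1 hp).2)
    (List.mem_toFinset.1 (Finset.mem_product.1 hq).2) _ _ _

theorem mem_box {a b : ℤ} {v : V} : v ∈ box a b ↔
    (a ≤ v.1 ∧ v.1 < b) ∧ (a ≤ v.2.1 ∧ v.2.1 < b) ∧ (a ≤ v.2.2 ∧ v.2.2 < b) := by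
  unfold box
  simp [Finset.mem_product, Finset.mem_Ico]

theorem tr_range {x : ℤ} (h : x ∈ tr) : -1 ≤ x ∧ x ≤ 1 := by
  unfold tr at h
  simp only [List.mem_cons, List.not_mem_nil, or_false] at h
  omega

/-- the contacts in the block -/
theorem contacts (k : ℕ) (hk : 2 ≤ k) :
    192 * (k - 2) ^ 3 ≤ ((RR k ×ˢ BB k).filter fun p => d2 p.1 p.2 = 17).card := by
  have h1 : (box 1 ((k : ℤ) - 1) ×ˢ cont).card = 192 * (k - 2) ^ 3 := by
    rw [Finset.card_product, box_card, cont_card, mul_comm]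
    congr 2
    omega
  rw [← h1]
  refine Finset.card_le_card_of_injOn
    (fun q => (pt q.1 q.2.1, pt (q.1.1 + q.2.2.2.1, q.1.2.1 + q.2.2.2.2.1,
      q.1.2.2 + q.2.2.2.2.2) q.2.2.1)) ?_ ?_
  · rintro ⟨c, r, b, x, y, z⟩ hq
    simp only [Finset.mem_coe, Finset.mem_product, cont, Finset.mem_filter,
      List.mem_toFinset] at hq
    obtain ⟨hc, ⟨hr, hb, hx, hy, hz⟩, h17⟩ := hq
    rw [mem_box] at hc
    have tx := tr_range hx
    have ty := tr_range hy
    have tz := tr_range hz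
    simp only [Finset.mem_coe, Finset.mem_filter, Finset.mem_product]
    refine ⟨⟨?_, ?_⟩, ?_⟩
    · refine Finset.mem_image.2 ⟨(c, r), ?_, rfl⟩
      refine Finset.mem_product.2 ⟨mem_box.2 ?_, List.mem_toFinset.2 hr⟩
      dsimp only
      omega
    · refine Finset.mem_image.2 ⟨((c.1 + x, c.2.1 + y, c.2.2 + z), b), ?_, rfl⟩
      refine Finset.mem_product.2 ⟨mem_box.2 ?_, List.mem_toFinset.2 hb⟩
      dsimp only
      omega
    · rw [d2_pt]
      dsimp only
      rw [← h17]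
      congr 1 <;> ring
  · rintro ⟨c, r, b, x, y, z⟩ hq ⟨c', r', b', x', y', z'⟩ hq' heq
    simp only [Finset.mem_coe, Finset.mem_product, cont, Finset.mem_filter,
      List.mem_toFinset] at hq hq'
    obtain ⟨hc, ⟨hr, hb, hx, hy, hz⟩, h17⟩ := hq
    obtain ⟨hc', ⟨hr', hb', hx', hy', hz'⟩, h17'⟩ := hq'
    obtain ⟨r1, r2, r3, r4, r5, r6⟩ := rg_CR hr
    obtain ⟨b1, b2, b3, b4, b5, b6⟩ := rg_CB hb
    obtain ⟨s1, s2, s3, s4, s5, s6⟩ := rg_CR hr'
    obtain ⟨e1, e2, e3, e4, e5, e6⟩ := rg_CB hb'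
    simp only [pt, Prod.mk.injEq] at heq
    obtain ⟨⟨g1, g2, g3⟩, g4, g5, g6⟩ := heq
    obtain ⟨c1, c2, c3⟩ := c
    obtain ⟨c1', c2', c3'⟩ := c'
    obtain ⟨u1, u2, u3⟩ := r
    obtain ⟨u1', u2', u3'⟩ := r'
    obtain ⟨v1, v2, v3⟩ := b
    obtain ⟨v1', v2', v3'⟩ := b'
    simp only [Prod.mk.injEq]
    dsimp only at *
    omega

/-- the scaled embedding into Euclidean space -/
noncomputable def emb (v : V) : EuclideanSpace ℝ (Fin 3) :=
  (1 / √17 : ℝ) • !₂[(v.1 : ℝ), (v.2.1 : ℝ), (v.2.2 : ℝ)]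

theorem dist_emb (u v : V) : dist (emb u) (emb v) = √((d2 u v : ℝ) / 17) := by
  rw [EuclideanSpace.dist_eq]
  congr 1
  simp only [Fin.sum_univ_three, emb, PiLp.smul_apply, smul_eq_mul, Real.dist_eq, sq_abs]
  have h17 : (√17 : ℝ) ^ 2 = 17 := Real.sq_sqrt (by norm_num)
  have hinv : (1 / √17 : ℝ) ^ 2 = 1 / 17 := by
    rw [div_pow, h17, one_pow]
  simp only [Matrix.cons_val_zero, Matrix.cons_val_one, Matrix.cons_val, d2, sq]
  push_cast
  have e : ∀ a b : ℝ, (1 / √17 * a - 1 / √17 * b) ^ 2 = (b - a) * (b - a) / 17 := by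
    intro a b
    rw [← mul_sub, mul_pow, hinv]
    ring
  rw [e, e, e]
  ring

theorem d2_eq_zero {u v : V} (h : d2 u v = 0) : u = v := by
  obtain ⟨a, b, c⟩ := u
  obtain ⟨a', b', c'⟩ := v
  unfold d2 sq at h
  dsimp only at h
  have h1 : (a' - a) * (a' - a) = 0 := by
    nlinarith [mul_self_nonneg (a' - a), mul_self_nonneg (b' - b), mul_self_nonneg (c' - c)]
  have h2 : (b' - b) * (b' - b) = 0 := by
    nlinarith [mul_self_nonneg (a' - a), mul_self_nonneg (b' - b), mul_self_nonneg (c' - c)]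
  have h3 : (c' - c) * (c' - c) = 0 := by
    nlinarith [mul_self_nonneg (a' - a), mul_self_nonneg (b' - b), mul_self_nonneg (c' - c)]
  rw [mul_self_eq_zero] at h1 h2 h3
  simp only [Prod.mk.injEq]
  omega

theorem d2_nonneg (u v : V) : 0 ≤ d2 u v := by
  unfold d2 sq
  nlinarith [mul_self_nonneg (v.1 - u.1), mul_self_nonneg (v.2.1 - u.2.1),
    mul_self_nonneg (v.2.2 - u.2.2)]

theorem emb_injective : Function.Injective emb := by
  intro u v h
  have h1 : dist (emb u) (emb v) = 0 := by rw [h, dist_self]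
  rw [dist_emb] at h1
  have h2 : (0 : ℝ) ≤ (d2 u v : ℝ) / 17 :=
    div_nonneg (by exact_mod_cast d2_nonneg u v) (by norm_num)
  rw [Real.sqrt_eq_zero h2] at h1
  have h3 : (d2 u v : ℝ) = 0 := by
    rw [div_eq_zero_iff] at h1
    rcases h1 with h1 | h1
    · exact h1
    · norm_num at h1
  exact d2_eq_zero (by exact_mod_cast h3)

theorem key (k : ℕ) (hk : 2 ≤ k) : ∃ R B : Finset (EuclideanSpace ℝ (Fin 3)),
    (∀ r ∈ R, ∀ b ∈ B, (1 : ℝ) ≤ dist r b) ∧ R.card ≤ 20 * k ^ 3 ∧ B.card ≤ 20 * k ^ 3 ∧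
      192 * (k - 2) ^ 3 ≤ ((R ×ˢ B).filter (fun p => dist p.1 p.2 = 1)).card := by
  classical
  refine ⟨(RR k).image emb, (BB k).image emb, ?_, Finset.card_image_le.trans (card_RR k),
    Finset.card_image_le.trans (card_BB k), ?_⟩
  · intro r hr b hb
    obtain ⟨u, hu, rfl⟩ := Finset.mem_image.1 hr
    obtain ⟨v, hv, rfl⟩ := Finset.mem_image.1 hb
    rw [dist_emb]
    have h1 : (17 : ℝ) ≤ (d2 u v : ℝ) := by exact_mod_cast sep hu hv
    rw [Real.one_le_sqrt, le_div_iff₀ (by norm_num)]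
    linarith
  · refine (contacts k hk).trans ?_
    refine Finset.card_le_card_of_injOn (fun p => (emb p.1, emb p.2)) ?_ ?_
    · intro p hp
      simp only [Finset.mem_coe, Finset.mem_filter, Finset.mem_product] at hp ⊢
      refine ⟨⟨Finset.mem_image_of_mem _ hp.1.1, Finset.mem_image_of_mem _ hp.1.2⟩, ?_⟩
      rw [dist_emb, hp.2]
      norm_num
    · intro p _ q _ h
      simp only [Prod.mk.injEq] at h
      exact Prod.ext (emb_injective h.1) (emb_injective h.2)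

/-- For every `C < 24 / 5` there are finite red and blue point sets in three-space with all
red-blue distances at least `1` and more than `C` times the number of points red-blue pairs at
distance exactly `1`. -/
theorem result : ∀ C : ℝ, C < 24 / 5 → ∃ R B : Finset (EuclideanSpace ℝ (Fin 3)),
    (∀ r ∈ R, ∀ b ∈ B, (1 : ℝ) ≤ dist r b) ∧
      C * ((R.card : ℝ) + (B.card : ℝ)) <
        (((R ×ˢ B).filter (fun p => dist p.1 p.2 = 1)).card : ℝ) := by
  intro C hC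
  obtain ⟨D, hCD, hD0, hD⟩ : ∃ D : ℝ, C ≤ D ∧ 0 ≤ D ∧ D < 24 / 5 :=
    ⟨max C 0, le_max_left _ _, le_max_right _ _, max_lt hC (by norm_num)⟩
  have hpos : (0 : ℝ) < 192 - 40 * D := by linarith
  obtain ⟨k, hk⟩ := exists_nat_gt (1152 / (192 - 40 * D))
  obtain ⟨m, hm⟩ : ∃ m : ℕ, m = k + 2 := ⟨_, rfl⟩
  have hm2 : 2 ≤ m := by omega
  have hmk : (k : ℝ) ≤ m := by
    have : k ≤ m := by omega
    exact_mod_cast this
  have hm' : 1152 / (192 - 40 * D) < (m : ℝ) := lt_of_lt_of_le hk hmk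
  rw [div_lt_iff₀ hpos] at hm'
  obtain ⟨R, B, hsep, hR, hB, hcount⟩ := key m hm2
  refine ⟨R, B, hsep, ?_⟩
  have hR' : (R.card : ℝ) ≤ 20 * (m : ℝ) ^ 3 := by exact_mod_cast hR
  have hB' : (B.card : ℝ) ≤ 20 * (m : ℝ) ^ 3 := by exact_mod_cast hB
  have hcount' : 192 * ((m : ℝ) - 2) ^ 3 ≤
      (((R ×ˢ B).filter (fun p => dist p.1 p.2 = 1)).card : ℝ) := by
    have : ((192 * (m - 2) ^ 3 : ℕ) : ℝ) ≤
      (((R ×ˢ B).filter (fun p => dist p.1 p.2 = 1)).card : ℝ) := by exact_mod_cast hcount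
    rw [Nat.cast_mul, Nat.cast_pow, Nat.cast_sub hm2] at this
    exact_mod_cast this
  have hm1 : (2 : ℝ) ≤ (m : ℝ) := by exact_mod_cast hm2
  have hsum : (0 : ℝ) ≤ (R.card : ℝ) + (B.card : ℝ) := by positivity
  calc C * ((R.card : ℝ) + (B.card : ℝ)) ≤ D * ((R.card : ℝ) + (B.card : ℝ)) :=
        mul_le_mul_of_nonneg_right hCD hsum
    _ ≤ D * (40 * (m : ℝ) ^ 3) := mul_le_mul_of_nonneg_left (by linarith) hD0
    _ < 192 * ((m : ℝ) - 2) ^ 3 := by
        have h1 : 192 * ((m : ℝ) - 2) ^ 3 =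
          192 * (m : ℝ) ^ 3 - 1152 * (m : ℝ) ^ 2 + 192 * (12 * m - 8) := by ring
        have h2 : 1152 * (m : ℝ) ^ 2 < (m * (192 - 40 * D)) * (m : ℝ) ^ 2 :=
          mul_lt_mul_of_pos_right hm' (by positivity)
        nlinarith
    _ ≤ _ := hcount'

end Pool.Agent.Results.MP_c6a5e4_co.CrystalBound
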