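import Pool.Agent.RBP.Sphere

/-!
MP_c6a5e4_co: red-blue unit distances in three-space.

If one of the two colour classes is covered by `t` surfaces, each a plane or a sphere (of any
radius), then the number of red-blue pairs at distance exactly one is at most
`2 t` times the size of the other class plus `9` times the size of the covered class.
So bounded `t` gives a linear bound, and a configuration that refutes a linear bound must use an
unbounded number of planes and spheres in each of its two colour classes.
-/

open Finset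

namespace Pool.Agent.Results.MP_c6a5e4_co.FewSurfaces

/-- A plane of three-space, or a sphere of three-space. -/
def IsPlaneOrSphere (S : Set (EuclideanSpace ℝ (Fin 3))) : Prop :=
  (∃ (u : EuclideanSpace ℝ (Fin 3)) (c : ℝ), u ≠ 0 ∧ S = {x | inner ℝ u x = c}) ∨
  (∃ (o : EuclideanSpace ℝ (Fin 3)) (ρ : ℝ), S = {x | dist x o = ρ})

open Classical in
/-- one surface -/
theorem surface_count (S : Set (EuclideanSpace ℝ (Fin 3))) (hS : IsPlaneOrSphere S)
    (I J : Finset (EuclideanSpace ℝ (Fin 3))) (hI : ∀ r ∈ I, r ∈ S)
    (hsep : ∀ r ∈ I, ∀ s ∈ J, 1 ≤ dist r s) :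
    ∑ s ∈ J, (I.filter (fun r => dist r s = 1)).card ≤ 2 * J.card + 9 * I.card := by
  rcases hS with ⟨u, c, hu, rfl⟩ | ⟨o, ρ, rfl⟩
  · have hn : ‖u‖ ≠ 0 := norm_ne_zero_iff.mpr hu
    have h1 : ‖(‖u‖⁻¹ : ℝ) • u‖ = 1 := by
      rw [norm_smul, norm_inv, norm_norm, inv_mul_cancel₀ hn]
    have h2 := Pool.Agent.RBP.plane_count ((‖u‖⁻¹ : ℝ) • u) h1 (‖u‖⁻¹ * c) I J
      (by
        intro r hr
        have h3 : inner ℝ u r = c := hI r hr
        rw [real_inner_smul_left, h3])
      hsep
    exact le_trans h2 (by omega)
  · exact Pool.Agent.RBP.sphere_count o ρ I J hI hsep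

open Classical in
/-- one class covered by `t` surfaces -/
theorem cover_count (t : ℕ) (F : Fin t → Set (EuclideanSpace ℝ (Fin 3)))
    (hF : ∀ i, IsPlaneOrSphere (F i))
    (R B : Finset (EuclideanSpace ℝ (Fin 3)))
    (hR : ∀ r ∈ R, ∃ i, r ∈ F i)
    (hsep : ∀ r ∈ R, ∀ b ∈ B, (1 : ℝ) ≤ dist r b) :
    ∑ b ∈ B, (R.filter (fun r => dist r b = 1)).card ≤ 2 * t * B.card + 9 * R.card := by
  rcases R.eq_empty_or_nonempty with hemp | ⟨r0, hr0⟩
  · subst hemp
    simp
  · obtain ⟨i0, -⟩ := hR r0 hr0
    have : Nonempty (Fin t) := ⟨i0⟩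
    choose! idx hidx using hR
    have h1 : ∀ b ∈ B, (R.filter (fun r => dist r b = 1)).card =
        ∑ i : Fin t, ((R.filter (fun r => idx r = i)).filter (fun r => dist r b = 1)).card := by
      intro b hb
      rw [Finset.card_eq_sum_card_fiberwise (f := idx) (t := Finset.univ)
        (fun r _ => Finset.mem_coe.mpr (Finset.mem_univ _))]
      apply Finset.sum_congr rfl
      intro i hi
      rw [Finset.filter_comm]
    rw [Finset.sum_congr rfl h1, Finset.sum_comm]
    have h2 : ∀ i ∈ (Finset.univ : Finset (Fin t)),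
        ∑ b ∈ B, ((R.filter (fun r => idx r = i)).filter (fun r => dist r b = 1)).card ≤
          2 * B.card + 9 * (R.filter (fun r => idx r = i)).card := by
      intro i _
      apply surface_count (F i) (hF i)
      · intro r hr
        rw [Finset.mem_filter] at hr
        rw [← hr.2]
        exact hidx r hr.1
      · intro r hr b hb
        exact hsep r (Finset.mem_filter.mp hr).1 b hb
    refine le_trans (Finset.sum_le_sum h2) ?_
    rw [Finset.sum_add_distrib, Finset.sum_const, ← Finset.mul_sum,
      ← Finset.card_eq_sum_card_fiberwise (f := idx) (t := Finset.univ)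
        (fun r _ => Finset.mem_coe.mpr (Finset.mem_univ _)), Finset.card_univ, Fintype.card_fin,
      smul_eq_mul]
    apply le_of_eq
    ring

/-- Let `R` and `B` be finite sets in three-space with all distances between them at least one.
If `R` is covered by `t` surfaces, each a plane or a sphere, then at most `2 t |B| + 9 |R|`
pairs of `R × B` are at distance exactly one; and the same with the roles of `R` and `B`
exchanged. -/
theorem result (t : ℕ) (F : Fin t → Set (EuclideanSpace ℝ (Fin 3)))
    (hF : ∀ i, IsPlaneOrSphere (F i))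
    (R B : Finset (EuclideanSpace ℝ (Fin 3)))
    (hsep : ∀ r ∈ R, ∀ b ∈ B, (1 : ℝ) ≤ dist r b) :
    ((∀ r ∈ R, ∃ i, r ∈ F i) →
      ((R ×ˢ B).filter (fun p => dist p.1 p.2 = 1)).card ≤ 2 * t * B.card + 9 * R.card) ∧
    ((∀ b ∈ B, ∃ i, b ∈ F i) →
      ((R ×ˢ B).filter (fun p => dist p.1 p.2 = 1)).card ≤ 2 * t * R.card + 9 * B.card) := by
  classical
  constructor
  · intro hR
    have h1 := cover_count t F hF R B hR hsep
    have h2 : ((R ×ˢ B).filter (fun p => dist p.1 p.2 = 1)).card =
        ∑ b ∈ B, (R.filter (fun r => dist r b = 1)).card := by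
      simp only [Finset.card_filter]
      exact Finset.sum_product_right _ _ _
    rw [h2]
    exact h1
  · intro hB
    have h1 := cover_count t F hF B R hB (fun b hb r hr => by
      rw [dist_comm]
      exact hsep r hr b hb)
    have h2 : ((R ×ˢ B).filter (fun p => dist p.1 p.2 = 1)).card =
        ∑ r ∈ R, (B.filter (fun b => dist b r = 1)).card := by
      simp only [Finset.card_filter]
      rw [Finset.sum_product]
      apply Finset.sum_congr rfl
      intro r hr
      apply Finset.sum_congr rfl
      intro b hb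
      rw [dist_comm]
    rw [h2]
    exact h1

end Pool.Agent.Results.MP_c6a5e4_co.FewSurfaces
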